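import Mathlib
set_option autoImplicit false
namespace Pool.Agent.Results.MP_9038fc_co.Disproof

/-- `adj` is the arc relation of a tournament on the vertex set `Fin n`. -/
def IsTournament {n : ℕ} (adj : Fin n → Fin n → Prop) : Prop :=
  (∀ v, ¬ adj v v) ∧ ∀ v w, v ≠ w → (adj v w ↔ ¬ adj w v)

/-- Number of Hamiltonian circuits of `adj`. A circuit is recorded by its successor
permutation `c`: one cycle through all vertices, with every `v → c v` an arc. -/
noncomputable def hamCount {n : ℕ} (adj : Fin n → Fin n → Prop) : ℕ :=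
  {c : Equiv.Perm (Fin n) |
    c.IsCycle ∧ c.support = Finset.univ ∧ ∀ v, adj v (c v)}.ncard

/-- The largest number of Hamiltonian circuits of an `n`-tournament. -/
noncomputable def maxHam (n : ℕ) : ℕ :=
  sSup {h | ∃ adj : Fin n → Fin n → Prop, IsTournament adj ∧ hamCount adj = h}

/-! ### Circuits as cyclic sequences starting at `0` -/

def seqs (adj : Fin 7 → Fin 7 → Prop) : Set (Equiv.Perm (Fin 7)) :=
  {f | f 0 = 0 ∧ ∀ k, adj (f k) (f (k + 1))}

theorem conj_apply (f : Equiv.Perm (Fin 7)) (k : Fin 7) :
    (f * finRotate 7 * f⁻¹) (f k) = f (k + 1) := by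
  simp

theorem hamCount_eq_seqs (adj : Fin 7 → Fin 7 → Prop) :
    hamCount adj = (seqs adj).ncard := by
  unfold hamCount
  rw [← Set.InjOn.ncard_image (s := seqs adj) (f := fun f => f * finRotate 7 * f⁻¹)]
  · congr 1
    ext c
    simp only [Set.mem_ofPred_eq, Set.mem_image, seqs]
    constructor
    · rintro ⟨hc, hs, ha⟩
      have hr : (finRotate 7).IsCycle := isCycle_finRotate
      have hconj : IsConj (finRotate 7) c := by
        apply Equiv.Perm.IsCycle.isConj hr hc
        rw [hs, support_finRotate]
      obtain ⟨g, hg⟩ := isConj_iff.mp hconj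
      have hpow : ∀ k : Fin 7, ((finRotate 7) ^ (k : ℕ)) 0 = k := by decide
      refine ⟨g * (finRotate 7) ^ ((g⁻¹ 0 : Fin 7) : ℕ), ⟨?_, ?_⟩, ?_⟩
      · rw [Equiv.Perm.mul_apply, hpow]; simp
      · intro k
        have : c = (g * (finRotate 7) ^ ((g⁻¹ 0 : Fin 7) : ℕ)) * finRotate 7 *
            (g * (finRotate 7) ^ ((g⁻¹ 0 : Fin 7) : ℕ))⁻¹ := by
          rw [← hg]; group
        have h2 := ha ((g * (finRotate 7) ^ ((g⁻¹ 0 : Fin 7) : ℕ)) k)
        have h3 := conj_apply (g * (finRotate 7) ^ ((g⁻¹ 0 : Fin 7) : ℕ)) k
        rw [← this] at h3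
        rw [← h3]; exact h2
      · rw [← hg]; group
    · rintro ⟨f, ⟨h0, hf⟩, rfl⟩
      have hr : (finRotate 7).IsCycle := isCycle_finRotate
      refine ⟨Equiv.Perm.IsCycle.conj hr, ?_, ?_⟩
      · ext v
        simp only [Finset.mem_univ, iff_true, Equiv.Perm.mem_support]
        intro h
        have hv : f (f⁻¹ v) = v := by simp
        have := conj_apply f (f⁻¹ v)
        rw [hv, h] at this
        have h4 : f⁻¹ v = f⁻¹ v + 1 := by
          apply f.injective; rw [hv]; exact this
        revert h4
        generalize f⁻¹ v = k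
        revert k; decide
      · intro v
        have hv : f (f⁻¹ v) = v := by simp
        have := conj_apply f (f⁻¹ v)
        rw [hv] at this
        rw [this]
        have h5 := hf (f⁻¹ v)
        rw [hv] at h5
        exact h5
  · intro f hf g hg hfg
    simp only [seqs, Set.mem_ofPred_eq] at hf hg
    have hstep : ∀ k, f k = g k → f (k + 1) = g (k + 1) := by
      intro k hk
      have h1 := conj_apply f k
      have h2 := conj_apply g k
      simp only at hfg
      rw [hfg, hk, h2] at h1
      exact h1.symm
    have h0 : f 0 = g 0 := by rw [hf.1, hg.1]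
    have h1 := hstep 0 h0
    have h2 := hstep _ h1
    have h3 := hstep _ h2
    have h4 := hstep _ h3
    have h5 := hstep _ h4
    have h6 := hstep _ h5
    ext k
    fin_cases k
    · simpa using congrArg Fin.val h0
    · simpa using congrArg Fin.val h1
    · simpa using congrArg Fin.val h2
    · simpa using congrArg Fin.val h3
    · simpa using congrArg Fin.val h4
    · simpa using congrArg Fin.val h5
    · simpa using congrArg Fin.val h6


/-! ### Enumeration by depth-first search -/

def enum (A : Fin 7 → Fin 7 → Bool) : ℕ → Fin 7 → List (Fin 7) → List (List (Fin 7))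
  | 0, last, _ => if A last 0 then [[]] else []
  | k + 1, last, av =>
      av.flatMap fun w => if A last w then (enum A k w (av.erase w)).map (w :: ·) else []

def cnt (A : Fin 7 → Fin 7 → Bool) : ℕ → Fin 7 → List (Fin 7) → ℕ
  | 0, last, _ => if A last 0 then 1 else 0
  | k + 1, last, av =>
      (av.map fun w => if A last w then cnt A k w (av.erase w) else 0).sum

theorem length_enum (A : Fin 7 → Fin 7 → Bool) (k : ℕ) (last : Fin 7) (av : List (Fin 7)) :
    (enum A k last av).length = cnt A k last av := by
  induction k generalizing last av with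
  | zero => unfold enum cnt; split_ifs <;> rfl
  | succ k ih =>
    unfold enum cnt
    rw [List.length_flatMap]
    congr 1
    apply List.map_congr_left
    intro w _
    by_cases h : A last w
    · simp [h, ih]
    · simp [h]

theorem nodup_enum (A : Fin 7 → Fin 7 → Bool) (k : ℕ) (last : Fin 7) (av : List (Fin 7))
    (hav : av.Nodup) : (enum A k last av).Nodup := by
  induction k generalizing last av with
  | zero => unfold enum; split_ifs <;> simp
  | succ k ih =>
    unfold enum
    rw [List.nodup_flatMap]
    constructor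
    · intro w _
      split_ifs
      · exact (ih w _ (hav.erase w)).map (List.cons_injective)
      · simp
    · refine List.Pairwise.imp_of_mem ?_ hav
      intro a b _ _ hab
      simp only [Function.onFun]
      intro x hx hx'
      split_ifs at hx with h1
      · split_ifs at hx' with h2
        · simp only [List.mem_map] at hx hx'
          obtain ⟨y, -, rfl⟩ := hx
          obtain ⟨z, -, hz⟩ := hx'
          exact hab (by simpa using (List.cons.inj hz).1.symm)
        · simp at hx'
      · simp at hx

theorem mem_enum (A : Fin 7 → Fin 7 → Bool) (k : ℕ) (last : Fin 7) (av : List (Fin 7))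
    (hl : av.length = k) (l : List (Fin 7)) :
    l ∈ enum A k last av ↔
      l.Perm av ∧ List.IsChain (fun a b => A a b = true) (last :: (l ++ [0])) := by
  induction k generalizing last av l with
  | zero =>
    unfold enum
    have : av = [] := List.length_eq_zero_iff.mp hl
    subst this
    by_cases h : A last 0
    · simp only [h, if_true, List.mem_singleton, List.perm_nil]
      constructor
      · rintro rfl; simp [h]
      · rintro ⟨rfl, _⟩; rfl
    · simp only [h, List.perm_nil]
      constructor
      · intro h'; simp at h'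
      · rintro ⟨rfl, h'⟩
        simp at h'
        exact absurd h' h
  | succ k ih =>
    unfold enum
    rw [List.mem_flatMap]
    constructor
    · rintro ⟨w, hw, hx⟩
      split_ifs at hx with h1
      · simp only [List.mem_map] at hx
        obtain ⟨y, hy, rfl⟩ := hx
        rw [ih w (av.erase w) (by rw [List.length_erase_of_mem hw, hl]; rfl)] at hy
        refine ⟨?_, ?_⟩
        · exact ((hy.1.cons w).trans (List.perm_cons_erase hw).symm)
        · simp only [List.cons_append, List.isChain_cons_cons]
          exact ⟨h1, hy.2⟩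
      · simp at hx
    · rintro ⟨hp, hc⟩
      cases l with
      | nil =>
        have := hp.length_eq
        rw [hl] at this
        simp at this
      | cons w y =>
        have hw : w ∈ av := hp.subset (by simp)
        simp only [List.cons_append, List.isChain_cons_cons] at hc
        refine ⟨w, hw, ?_⟩
        rw [if_pos hc.1]
        simp only [List.mem_map]
        refine ⟨y, ?_, rfl⟩
        rw [ih w (av.erase w) (by rw [List.length_erase_of_mem hw, hl]; rfl)]
        refine ⟨?_, hc.2⟩
        have := hp.trans (List.perm_cons_erase hw)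
        exact (List.perm_cons w).mp this


def others : List (Fin 7) := [1, 2, 3, 4, 5, 6]

theorem mem_others (a : Fin 7) : a ∈ others ↔ a ≠ 0 := by
  revert a; decide

theorem seqs_ncard (adj : Fin 7 → Fin 7 → Prop) (A : Fin 7 → Fin 7 → Bool)
    (hA : ∀ i j, A i j = true ↔ adj i j) :
    (seqs adj).ncard = cnt A 6 0 others := by
  rw [← length_enum]
  have hnd : (enum A 6 0 others).Nodup := nodup_enum A 6 0 others (by decide)
  have hcard : ((enum A 6 0 others).toFinset : Set (List (Fin 7))).ncard =
      (enum A 6 0 others).length := by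
    rw [Set.ncard_coe_finset, List.toFinset_card_of_nodup hnd]
  rw [← hcard]
  refine Set.ncard_congr (fun f _ => [f 1, f 2, f 3, f 4, f 5, f 6]) ?_ ?_ ?_
  · rintro f ⟨h0, hf⟩
    simp only [List.coe_toFinset, Set.mem_ofPred_eq]
    rw [mem_enum A 6 0 others rfl]
    have hnodup : [f 1, f 2, f 3, f 4, f 5, f 6].Nodup := by
      have : ([1, 2, 3, 4, 5, 6] : List (Fin 7)).Nodup := by decide
      exact this.map f.injective
    constructor
    · rw [List.perm_ext_iff_of_nodup hnodup (by decide)]
      intro a
      rw [mem_others]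
      constructor
      · intro ha h
        subst h
        have : ∃ i : Fin 7, i ≠ 0 ∧ f i = 0 := by
          simp only [List.mem_cons, List.not_mem_nil, or_false] at ha
          rcases ha with h | h | h | h | h | h
          · exact ⟨1, by decide, h.symm⟩
          · exact ⟨2, by decide, h.symm⟩
          · exact ⟨3, by decide, h.symm⟩
          · exact ⟨4, by decide, h.symm⟩
          · exact ⟨5, by decide, h.symm⟩
          · exact ⟨6, by decide, h.symm⟩
        obtain ⟨i, hi, hi'⟩ := this
        exact hi (f.injective (hi'.trans h0.symm))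
      · intro ha
        obtain ⟨i, rfl⟩ := f.surjective a
        have hi : i ≠ 0 := by rintro rfl; exact ha h0
        have : i ∈ ([1, 2, 3, 4, 5, 6] : List (Fin 7)) := (mem_others i).mpr hi
        exact List.mem_map_of_mem this
    · have e0 := hf 0
      have e1 := hf 1
      have e2 := hf 2
      have e3 := hf 3
      have e4 := hf 4
      have e5 := hf 5
      have e6 := hf 6
      have i0 : (0 : Fin 7) + 1 = 1 := by decide
      have i1 : (1 : Fin 7) + 1 = 2 := by decide
      have i2 : (2 : Fin 7) + 1 = 3 := by decide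
      have i3 : (3 : Fin 7) + 1 = 4 := by decide
      have i4 : (4 : Fin 7) + 1 = 5 := by decide
      have i5 : (5 : Fin 7) + 1 = 6 := by decide
      have i6 : (6 : Fin 7) + 1 = 0 := by decide
      rw [i0, h0, ← hA] at e0
      rw [i1, ← hA] at e1
      rw [i2, ← hA] at e2
      rw [i3, ← hA] at e3
      rw [i4, ← hA] at e4
      rw [i5, ← hA] at e5
      rw [i6, h0, ← hA] at e6
      simp only [List.cons_append, List.nil_append, List.isChain_cons_cons,
        List.isChain_singleton, and_true]
      exact ⟨e0, e1, e2, e3, e4, e5, e6⟩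
  · rintro f g ⟨hf0, _⟩ ⟨hg0, _⟩ h
    simp only [List.cons.injEq, and_true] at h
    obtain ⟨h1, h2, h3, h4, h5, h6⟩ := h
    apply Equiv.ext
    intro k
    fin_cases k
    · exact hf0.trans hg0.symm
    · exact h1
    · exact h2
    · exact h3
    · exact h4
    · exact h5
    · exact h6
  · intro l hl
    simp only [List.coe_toFinset, Set.mem_ofPred_eq] at hl
    rw [mem_enum A 6 0 others rfl] at hl
    obtain ⟨hp, hc⟩ := hl
    have hlen : l.length = 6 := hp.length_eq
    have hnd' : l.Nodup := hp.nodup_iff.mpr (by decide)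
    have h0' : (0 : Fin 7) ∉ l := by
      intro h; exact (mem_others 0).mp (hp.subset h) rfl
    obtain ⟨a1, a2, a3, a4, a5, a6, rfl⟩ : ∃ a1 a2 a3 a4 a5 a6, l = [a1, a2, a3, a4, a5, a6] := by
      match l, hlen with
      | [a1, a2, a3, a4, a5, a6], _ => exact ⟨a1, a2, a3, a4, a5, a6, rfl⟩
    have hinj : Function.Injective (![0, a1, a2, a3, a4, a5, a6] : Fin 7 → Fin 7) := by
      have hnd2 : (0 :: [a1, a2, a3, a4, a5, a6]).Nodup := List.nodup_cons.mpr ⟨h0', hnd'⟩
      have : (List.ofFn (![0, a1, a2, a3, a4, a5, a6] : Fin 7 → Fin 7)).Nodup := by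
        simpa [List.ofFn_succ] using hnd2
      exact List.nodup_ofFn.mp this
    let f : Equiv.Perm (Fin 7) := Equiv.ofBijective _ (Finite.injective_iff_bijective.mp hinj)
    refine ⟨f, ⟨rfl, ?_⟩, rfl⟩
    simp only [List.cons_append, List.nil_append, List.isChain_cons_cons,
        List.isChain_singleton, and_true] at hc
    obtain ⟨e0, e1, e2, e3, e4, e5, e6⟩ := hc
    intro k
    rw [← hA]
    fin_cases k
    · exact e0
    · exact e1
    · exact e2
    · exact e3
    · exact e4
    · exact e5
    · exact e6


/-! ### Evaluating all tournaments at once: bit `m` of every number belongs to tournament `m` -/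

abbrev Acc := ℕ × ℕ × ℕ × ℕ × ℕ

def addInd (ind : ℕ) (a : Acc) : Acc :=
  (a.1 ^^^ ind,
   a.2.1 ^^^ (a.1 &&& ind),
   a.2.2.1 ^^^ (a.2.1 &&& (a.1 &&& ind)),
   a.2.2.2.1 ^^^ (a.2.2.1 &&& (a.2.1 &&& (a.1 &&& ind))),
   a.2.2.2.2 ^^^ (a.2.2.2.1 &&& (a.2.2.1 &&& (a.2.1 &&& (a.1 &&& ind)))))

def val (m : ℕ) (a : Acc) : ℕ :=
  (a.1.testBit m).toNat + 2 * (a.2.1.testBit m).toNat + 4 * (a.2.2.1.testBit m).toNat
    + 8 * (a.2.2.2.1.testBit m).toNat + 16 * (a.2.2.2.2.testBit m).toNat

theorem val_addInd (m ind : ℕ) (a : Acc) :
    val m (addInd ind a) ≡ val m a + (ind.testBit m).toNat [MOD 32] := by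
  unfold val addInd
  simp only [Nat.testBit_xor, Nat.testBit_land]
  generalize a.1.testBit m = b0
  generalize a.2.1.testBit m = b1
  generalize a.2.2.1.testBit m = b2
  generalize a.2.2.2.1.testBit m = b3
  generalize a.2.2.2.2.testBit m = b4
  generalize ind.testBit m = c
  revert b0 b1 b2 b3 b4 c
  decide

def run (T : Fin 7 → Fin 7 → ℕ) : ℕ → Fin 7 → List (Fin 7) → ℕ → Acc → Acc
  | 0, last, _, ind, a => addInd (ind &&& T last 0) a
  | k + 1, last, av, ind, a =>
      av.foldl (fun a w => if ind &&& T last w = 0 then a else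
        run T k w (av.erase w) (ind &&& T last w) a) a

theorem val_run (T : Fin 7 → Fin 7 → ℕ) (m : ℕ) (k : ℕ) (last : Fin 7) (av : List (Fin 7))
    (ind : ℕ) (a : Acc) :
    val m (run T k last av ind a) ≡
      val m a + (ind.testBit m).toNat * cnt (fun i j => (T i j).testBit m) k last av
        [MOD 32] := by
  induction k generalizing last av ind a with
  | zero =>
    unfold run cnt
    refine (val_addInd m _ a).trans ?_
    rw [Nat.testBit_land]
    cases ind.testBit m <;> cases (T last 0).testBit m <;> simp <;> rfl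
  | succ k ih =>
    have key : ∀ (l : List (Fin 7)) (a : Acc),
        val m (l.foldl (fun a w => if ind &&& T last w = 0 then a else
          run T k w (av.erase w) (ind &&& T last w) a) a) ≡
        val m a + (ind.testBit m).toNat * (l.map fun w => if (T last w).testBit m then
          cnt (fun i j => (T i j).testBit m) k w (av.erase w) else 0).sum [MOD 32] := by
      intro l
      induction l with
      | nil => intro a; simp; rfl
      | cons w l ihl =>
        intro a
        rw [List.foldl_cons, List.map_cons, List.sum_cons]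
        refine (ihl _).trans ?_
        by_cases h : ind &&& T last w = 0
        · rw [if_pos h]
          have h2 : (ind &&& T last w).testBit m = false := by rw [h]; simp
          rw [Nat.testBit_land] at h2
          cases hi : ind.testBit m
          · simp; rfl
          · rw [hi] at h2
            simp only [Bool.true_and] at h2
            simp [h2]; rfl
        · rw [if_neg h]
          have h3 := ih w (av.erase w) (ind &&& T last w) a
          rw [Nat.testBit_land] at h3
          refine (h3.add_right _).trans ?_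
          cases hi : ind.testBit m
          · simp; rfl
          · cases ht : (T last w).testBit m
            · simp; rfl
            · simp only [Bool.and_self, Bool.toNat_true, one_mul, if_true]
              rw [add_assoc]
    unfold run
    refine (key av a).trans ?_
    rw [cnt]

/-- the number whose bit `m`, for `m < 2 ^ n`, is bit `k` of `m` -/
def tt : ℕ → ℕ → ℕ
  | 0, _ => 0
  | n + 1, k => if k = n then (2 ^ (2 ^ n) - 1) <<< (2 ^ n) else tt n k ||| (tt n k <<< 2 ^ n)

theorem tt_lt (n k : ℕ) : tt n k < 2 ^ (2 ^ n) := by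
  induction n with
  | zero => simp [tt]
  | succ n ih =>
    unfold tt
    have hpow : (2 : ℕ) ^ (2 ^ (n + 1)) = 2 ^ (2 ^ n) * 2 ^ (2 ^ n) := by
      rw [← pow_add]; congr 1; ring
    split_ifs with h
    · rw [Nat.shiftLeft_eq, hpow]
      apply Nat.mul_lt_mul_of_pos_right
      · exact Nat.sub_lt (by positivity) one_pos
      · positivity
    · apply Nat.or_lt_two_pow
      · refine lt_of_lt_of_le ih ?_
        exact Nat.pow_le_pow_right (by norm_num) (Nat.pow_le_pow_right (by norm_num) (by omega))
      · rw [Nat.shiftLeft_eq, hpow]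
        exact Nat.mul_lt_mul_of_pos_right ih (by positivity)

theorem testBit_tt (n k m : ℕ) (hk : k < n) (hm : m < 2 ^ n) :
    (tt n k).testBit m = m.testBit k := by
  induction n generalizing m with
  | zero => omega
  | succ n ih =>
    unfold tt
    split_ifs with h
    · subst h
      rw [Nat.testBit_shiftLeft, Nat.testBit_two_pow_sub_one]
      by_cases h2 : 2 ^ k ≤ m
      · have h3 : m - 2 ^ k < 2 ^ k := by rw [pow_succ] at hm; omega
        have : m.testBit k = true := by
          have : m = 2 ^ k + (m - 2 ^ k) := by omega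
          rw [this, Nat.testBit_two_pow_add_eq, Nat.testBit_lt_two_pow h3]; rfl
        rw [this]
        simp [h2, h3]
      · have : m.testBit k = false := Nat.testBit_lt_two_pow (by omega)
        rw [this]
        simp [h2]
    · have hk' : k < n := by omega
      rw [Nat.testBit_lor, Nat.testBit_shiftLeft]
      by_cases h2 : 2 ^ n ≤ m
      · have h3 : m - 2 ^ n < 2 ^ n := by rw [pow_succ] at hm; omega
        have h4 : (tt n k).testBit m = false := by
          apply Nat.testBit_lt_two_pow
          exact lt_of_lt_of_le (tt_lt n k) (Nat.pow_le_pow_right (by norm_num) h2)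
        rw [h4, ih _ hk' h3]
        have h5 : m = 2 ^ n + (m - 2 ^ n) := by omega
        have h6 : m.testBit k = (m - 2 ^ n).testBit k := by
          conv_lhs => rw [h5]
          rw [Nat.testBit_two_pow_add_gt hk']
        rw [h6]
        simp [h2]
      · rw [ih _ hk' (by omega)]
        simp [h2]


def mask : ℕ := 2 ^ (2 ^ 15) - 1

theorem testBit_mask (m : ℕ) (hm : m < 2 ^ 15) : mask.testBit m = true := by
  unfold mask
  rw [Nat.testBit_two_pow_sub_one]
  simp only [decide_eq_true_eq]
  exact hm

/-- position of the pair `i < j` of vertices of `{1, ..., 6}` -/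
def idx (i j : ℕ) : ℕ := (j - 1) * (j - 2) / 2 + (i - 1)

/-- arc tables: vertex `0` beats `j` iff bit `j - 1` of `u` is set -/
def tab (u : ℕ) (i j : Fin 7) : ℕ :=
  if i = j then 0
  else if i.1 = 0 then (if u.testBit (j.1 - 1) then mask else 0)
  else if j.1 = 0 then (if u.testBit (i.1 - 1) then 0 else mask)
  else if i.1 < j.1 then tt 15 (idx i.1 j.1)
  else if j.1 < i.1 then mask ^^^ tt 15 (idx j.1 i.1)
  else 0

/-- bit `m` is set iff the counter of tournament `m` is `16` or `18, ..., 23` modulo `32` -/
def bad (a : Acc) : ℕ :=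
  a.2.2.2.2 &&& (mask ^^^ a.2.2.2.1) &&& (a.2.2.1 ||| a.2.1 ||| (mask ^^^ a.1))

theorem bad_spec (a : Acc) (m : ℕ) (hm : m < 2 ^ 15) (h : bad a = 0) (h2 : 16 ≤ val m a)
    (h3 : val m a ≤ 23) : val m a = 17 := by
  have h4 : (bad a).testBit m = false := by rw [h]; simp
  unfold bad at h4
  unfold val at *
  simp only [Nat.testBit_xor, Nat.testBit_land, Nat.testBit_lor, testBit_mask m hm] at h4
  revert h4 h2 h3
  generalize a.1.testBit m = b0
  generalize a.2.1.testBit m = b1
  generalize a.2.2.1.testBit m = b2
  generalize a.2.2.2.1.testBit m = b3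
  generalize a.2.2.2.2.testBit m = b4
  revert b0 b1 b2 b3 b4
  decide

def final (u : ℕ) : Acc := run (tab u) 6 0 others mask (0, 0, 0, 0, 0)

def chk (u : ℕ) : Bool := bad (final u) == 0

theorem chk0 : ∀ u < 8, chk u = true := by decide +kernel
theorem chk1 : ∀ u < 8, chk (u + 8) = true := by decide +kernel
theorem chk2 : ∀ u < 8, chk (u + 16) = true := by decide +kernel
theorem chk3 : ∀ u < 8, chk (u + 24) = true := by decide +kernel
theorem chk4 : ∀ u < 8, chk (u + 32) = true := by decide +kernel
theorem chk5 : ∀ u < 8, chk (u + 40) = true := by decide +kernel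
theorem chk6 : ∀ u < 8, chk (u + 48) = true := by decide +kernel
theorem chk7 : ∀ u < 8, chk (u + 56) = true := by decide +kernel

theorem chk_all (u : ℕ) (hu : u < 64) : chk u = true := by
  have h : u / 8 < 8 := by omega
  have h2 : u % 8 < 8 := by omega
  have h3 : u = u % 8 + 8 * (u / 8) := by omega
  rw [h3]
  generalize u / 8 = q at h
  generalize u % 8 = r at h2
  interval_cases q
  · exact chk0 r h2
  · exact chk1 r h2
  · exact chk2 r h2
  · exact chk3 r h2
  · exact chk4 r h2
  · exact chk5 r h2
  · exact chk6 r h2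
  · exact chk7 r h2

/-- code of the arcs leaving vertex `0` -/
def codeU (A : Fin 7 → Fin 7 → Bool) : ℕ :=
  Nat.ofBits (n := 6) ![A 0 1, A 0 2, A 0 3, A 0 4, A 0 5, A 0 6]

/-- code of the arcs between the other vertices -/
def codeM (A : Fin 7 → Fin 7 → Bool) : ℕ :=
  Nat.ofBits (n := 15) ![A 1 2, A 1 3, A 2 3, A 1 4, A 2 4, A 3 4, A 1 5, A 2 5, A 3 5, A 4 5,
    A 1 6, A 2 6, A 3 6, A 4 6, A 5 6]

theorem codeU_lt (A : Fin 7 → Fin 7 → Bool) : codeU A < 64 := Nat.ofBits_lt_two_pow _

theorem codeM_lt (A : Fin 7 → Fin 7 → Bool) : codeM A < 2 ^ 15 := Nat.ofBits_lt_two_pow _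



theorem testBit_ite_mask (b : Bool) (m : ℕ) (hm : m < 2 ^ 15) :
    (if b = true then mask else 0).testBit m = b := by
  cases b
  · simp
  · simp [testBit_mask m hm]

theorem testBit_ite_mask' (b : Bool) (m : ℕ) (hm : m < 2 ^ 15) :
    (if b = true then 0 else mask).testBit m = !b := by
  cases b
  · simp [testBit_mask m hm]
  · simp

theorem tab_spec (A : Fin 7 → Fin 7 → Bool) (hirr : ∀ i, A i i = false)
    (hanti : ∀ i j, i ≠ j → A j i = !A i j) (i j : Fin 7) :
    (tab (codeU A) i j).testBit (codeM A) = A i j := by
  have hm := codeM_lt A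
  have hU : ∀ k : Fin 6, (codeU A).testBit k.1 =
      ![A 0 1, A 0 2, A 0 3, A 0 4, A 0 5, A 0 6] k := by
    intro k
    unfold codeU
    rw [Nat.testBit_ofBits_lt _ _ k.2]
  have hM : ∀ k : Fin 15, (tt 15 k.1).testBit (codeM A) =
      ![A 1 2, A 1 3, A 2 3, A 1 4, A 2 4, A 3 4, A 1 5, A 2 5, A 3 5, A 4 5,
    A 1 6, A 2 6, A 3 6, A 4 6, A 5 6] k := by
    intro k
    rw [testBit_tt 15 k.1 _ k.2 hm]
    unfold codeM
    rw [Nat.testBit_ofBits_lt _ _ k.2]
  have hmask := testBit_mask _ hm
  generalize codeM A = m at *
  generalize codeU A = u at *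
  have hU' : ∀ j : Fin 7, j ≠ 0 → u.testBit (j.1 - 1) = A 0 j := by
    intro j hj
    fin_cases j
    · exact absurd rfl hj
    · exact hU 0
    · exact hU 1
    · exact hU 2
    · exact hU 3
    · exact hU 4
    · exact hU 5
  have hM' : ∀ i j : Fin 7, i ≠ 0 → i < j → (tt 15 (idx i.1 j.1)).testBit m = A i j := by
    intro i j hi hij
    fin_cases i
    · exact absurd rfl hi
    all_goals fin_cases j
    all_goals first
      | exact absurd hij (by decide)
      | skip
    · exact hM 0
    · exact hM 1
    · exact hM 3
    · exact hM 6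
    · exact hM 10
    · exact hM 2
    · exact hM 4
    · exact hM 7
    · exact hM 11
    · exact hM 5
    · exact hM 8
    · exact hM 12
    · exact hM 9
    · exact hM 13
    · exact hM 14
  unfold tab
  by_cases hij : i = j
  · rw [if_pos hij, hij, hirr]; simp
  rw [if_neg hij]
  by_cases hi : i = 0
  · rw [if_pos (by rw [hi]; rfl), testBit_ite_mask _ _ hm, hi]
    exact hU' j (fun h => hij (hi.trans h.symm))
  have hi' : ¬ (i.1 = 0) := fun h => hi (Fin.ext h)
  rw [if_neg hi']
  by_cases hj : j = 0
  · rw [if_pos (by rw [hj]; rfl), testBit_ite_mask' _ _ hm, hj, hU' i hi,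
      hanti 0 i (Ne.symm hi)]
  have hj' : ¬ (j.1 = 0) := fun h => hj (Fin.ext h)
  rw [if_neg hj']
  by_cases hlt : i.1 < j.1
  · rw [if_pos hlt]
    exact hM' i j hi hlt
  rw [if_neg hlt]
  have hne : i.1 ≠ j.1 := fun h => hij (Fin.ext h)
  have hgt : j.1 < i.1 := by omega
  rw [if_pos hgt, Nat.testBit_xor, hmask, hM' j i hj hgt, hanti j i (Ne.symm hij)]
  simp

/-- No 7-tournament has exactly `h` Hamiltonian circuits for `h = 16` or `18 ≤ h ≤ 23`. -/
theorem gap (adj : Fin 7 → Fin 7 → Prop) (hadj : IsTournament adj) (h16 : 16 ≤ hamCount adj)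
    (h23 : hamCount adj ≤ 23) : hamCount adj = 17 := by
  classical
  let A : Fin 7 → Fin 7 → Bool := fun i j => decide (adj i j)
  have hA : ∀ i j, A i j = true ↔ adj i j := by intro i j; simp [A]
  have hirr : ∀ i, A i i = false := by intro i; simp [A, hadj.1 i]
  have hanti : ∀ i j, i ≠ j → A j i = !A i j := by
    intro i j hij
    have := hadj.2 i j hij
    by_cases h1 : adj i j
    · have h2 : ¬ adj j i := this.mp h1
      simp [A, h1, h2]
    · have h2 : adj j i := by by_contra h3; exact h1 (this.mpr h3)
      simp [A, h1, h2]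
  have hcount : hamCount adj = cnt A 6 0 others := by
    rw [hamCount_eq_seqs, seqs_ncard adj A hA]
  have hm := codeM_lt A
  have hspec := tab_spec A hirr hanti
  have hval := val_run (tab (codeU A)) (codeM A) 6 0 others mask (0, 0, 0, 0, 0)
  have hfun : (fun i j => (tab (codeU A) i j).testBit (codeM A)) = A := by
    funext i j; exact hspec i j
  rw [hfun, testBit_mask _ hm] at hval
  have h0 : val (codeM A) (0, 0, 0, 0, 0) = 0 := by simp [val]
  rw [h0, Bool.toNat_true, one_mul, zero_add, ← hcount] at hval
  have hlt : val (codeM A) (run (tab (codeU A)) 6 0 others mask (0, 0, 0, 0, 0)) < 32 := by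
    unfold val
    have hb : ∀ b : Bool, b.toNat ≤ 1 := by decide
    have := hb ((run (tab (codeU A)) 6 0 others mask (0, 0, 0, 0, 0)).1.testBit (codeM A))
    have := hb ((run (tab (codeU A)) 6 0 others mask (0, 0, 0, 0, 0)).2.1.testBit (codeM A))
    have := hb ((run (tab (codeU A)) 6 0 others mask (0, 0, 0, 0, 0)).2.2.1.testBit (codeM A))
    have := hb ((run (tab (codeU A)) 6 0 others mask (0, 0, 0, 0, 0)).2.2.2.1.testBit (codeM A))
    have := hb ((run (tab (codeU A)) 6 0 others mask (0, 0, 0, 0, 0)).2.2.2.2.testBit (codeM A))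
    omega
  have heq : val (codeM A) (run (tab (codeU A)) 6 0 others mask (0, 0, 0, 0, 0)) =
      hamCount adj := by
    have := hval
    unfold Nat.ModEq at this
    rw [Nat.mod_eq_of_lt hlt, Nat.mod_eq_of_lt (by omega)] at this
    exact this
  have hchk := chk_all (codeU A) (codeU_lt A)
  unfold chk final at hchk
  rw [beq_iff_eq] at hchk
  have := bad_spec _ (codeM A) hm hchk (by rw [heq]; exact h16) (by rw [heq]; exact h23)
  rw [← heq]; exact this

/-- the quadratic residue tournament on `7` vertices -/
def paley (i j : Fin 7) : Bool := decide (j - i = 1 ∨ j - i = 2 ∨ j - i = 4)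

theorem paley_count : cnt paley 6 0 others = 24 := by decide +kernel

theorem paley_tournament : IsTournament (fun i j => paley i j = true) := by
  unfold IsTournament
  decide

theorem hamCount_paley : hamCount (fun i j => paley i j = true) = 24 := by
  rw [hamCount_eq_seqs, seqs_ncard _ paley (fun _ _ => Iff.rfl), paley_count]

theorem bddAbove (n : ℕ) :
    BddAbove {h | ∃ adj : Fin n → Fin n → Prop, IsTournament adj ∧ hamCount adj = h} := by
  refine ⟨Nat.card (Equiv.Perm (Fin n)), ?_⟩
  rintro h ⟨adj, -, rfl⟩
  unfold hamCount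
  exact Set.ncard_le_card _

/-- The answer to Q1 is negative: for `n = 7` the number `h = 16` is at most the largest
number of Hamiltonian circuits of an `n`-tournament, yet no `n`-tournament has exactly
`h` Hamiltonian circuits. -/
theorem result :
    ¬ ∀ n : ℕ, 1 ≤ n → ∀ h : ℕ, h ≤ maxHam n →
      ∃ adj : Fin n → Fin n → Prop, IsTournament adj ∧ hamCount adj = h := by
  intro H
  have h24 : 24 ≤ maxHam 7 := le_csSup (bddAbove 7) ⟨_, paley_tournament, hamCount_paley⟩
  obtain ⟨adj, hadj, hc⟩ := H 7 (by norm_num) 16 (by omega)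
  have := gap adj hadj (by omega) (by omega)
  omega

end Pool.Agent.Results.MP_9038fc_co.Disproof
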